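import Pool.Agent.Helper5.CYC.T3L

/-!
# Transfer of the gap relations with label set `L` to quotients of characteristic 2
-/

set_option autoImplicit false

namespace Pool.Agent.Helper5.CYC

open Finset Polynomial Pool.Agent.Helper10.CYC

open Classical in
/-- The relation for the label set `L` in characteristic 2 form. -/
def RelL {R : Type*} [CommRing R] {k : ℕ} (f : R[X]) (b : ℕ) (L u : Fin k → ℕ) : Prop :=
  ∀ g : Fin k → R[X],
    ∑ s ∈ univ.filter (fun s : Equiv.Perm (Fin k) => GoodL k b L u s),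
      dd f (fun j => g j * X ^ L (s j)) = 0

/-- Signed sum over any finite family of exponent functions, over a domain. -/
lemma sum_dom {R : Type} [CommRing R] [IsDomain R] {k : ℕ} {ι : Type*} (T : Finset ι) (c : ι → R)
    (e : ι → Fin k → ℕ) (x : Fin k → R) (hx : Function.Injective x)
    (hW : ∀ σ : Equiv.Perm (Fin k), ∑ s ∈ T, c s * ∏ i, x (σ i) ^ e s i = 0)
    (G : Fin k → R[X]) :
    ∑ s ∈ T, c s * dd (∏ i, (X - C (x i))) (fun j => G j * X ^ e s j) = 0 := by
  have hV : (Matrix.vandermonde x).det ≠ 0 := Matrix.det_vandermonde_ne_zero_iff.2 hx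
  have key : (Matrix.vandermonde x).det *
      ∑ s ∈ T, c s * dd (∏ i, (X - C (x i))) (fun j => G j * X ^ e s j) = 0 := by
    rw [Finset.mul_sum]
    have e1 : ∀ s ∈ T, (Matrix.vandermonde x).det *
          (c s * dd (∏ i, (X - C (x i))) (fun j => G j * X ^ e s j))
        = ∑ σ : Equiv.Perm (Fin k), ((Equiv.Perm.sign σ : ℤ) : R) *
            ((∏ i, (G i).eval (x (σ i))) * (c s * ∏ i, x (σ i) ^ e s i)) := by
      intro s _
      rw [mul_left_comm, ← Helper91.CYC.st_a2 R k x (fun j => G j * X ^ e s j),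
        Matrix.det_apply', Finset.mul_sum]
      refine Finset.sum_congr rfl (fun σ _ => ?_)
      have h1 : ∏ i, (Matrix.of fun i j : Fin k => ((G j * X ^ e s j : R[X])).eval (x i)) (σ i) i
          = (∏ i, (G i).eval (x (σ i))) * ∏ i, x (σ i) ^ e s i := by
        rw [← Finset.prod_mul_distrib]
        refine Finset.prod_congr rfl (fun i _ => ?_)
        simp
      rw [h1]
      ring
    rw [Finset.sum_congr rfl e1, Finset.sum_comm]
    refine Finset.sum_eq_zero (fun σ _ => ?_)
    rw [← Finset.mul_sum, ← Finset.mul_sum, hW σ, mul_zero, mul_zero]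
  exact (mul_eq_zero.1 key).resolve_left hV

/-- Units of `ℤ` become one in characteristic two. -/
lemma unit_cast_two {S : Type} [CommRing S] [CharP S 2] (ε : ℤˣ) : ((ε : ℤ) : S) = 1 := by
  rcases Int.units_eq_one_or ε with h | h
  · rw [h]; simp
  · rw [h]
    simp only [Units.val_neg, Units.val_one, Int.cast_neg, Int.cast_one]
    exact CharTwo.neg_eq 1

open Classical in
/-- The relation over a quotient of characteristic 2 of a domain. -/
theorem relL_quot {R S : Type} [CommRing R] [IsDomain R] [CommRing S] [CharP S 2] (φ : R →+* S)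
    (hφ : Function.Surjective φ) {k b : ℕ} (L u : Fin k → ℕ) (x : Fin k → R)
    (hx : Function.Injective x)
    (hW : ∀ σ : Equiv.Perm (Fin k),
      ∑ s ∈ univ.filter (fun s : Equiv.Perm (Fin k) => GoodL k b L u s),
        ((epsL k b L u s : ℤ) : R) * ∏ i, x (σ i) ^ L (s i) = 0) :
    RelL (∏ i, (X - C (φ (x i)))) b L u := by
  intro g
  have hg : ∀ j, ∃ G : R[X], G.map φ = g j := fun j => Polynomial.map_surjective _ hφ (g j)
  choose G hG using hg
  have h3 := congrArg φ (sum_dom _ (fun s => ((epsL k b L u s : ℤ) : R))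
    (fun s i => L (s i)) x hx hW G)
  rw [map_zero, map_sum] at h3
  rw [← h3]
  refine Finset.sum_congr rfl (fun s _ => ?_)
  rw [map_mul, map_intCast, unit_cast_two, one_mul,
    Helper91.CYC.st_a1 R S φ k _ (monic_prod_of_monic _ _ fun i _ => monic_X_sub_C _)]
  congr 1
  · rw [Polynomial.map_prod]
    refine Finset.prod_congr rfl (fun i _ => ?_)
    simp
  · funext j
    rw [Polynomial.map_mul, hG, Polynomial.map_pow, Polynomial.map_X]

open Classical in
/-- The relation over a quotient of characteristic 2 of a subring `R` of `ℂ`, from the complex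
relations at all orderings. -/
theorem relL_quot_C {R S : Type} [CommRing R] [IsDomain R] [CommRing S] [CharP S 2] (φ : R →+* S)
    (hφ : Function.Surjective φ) (ι : R →+* ℂ) (hι : Function.Injective ι) {k b : ℕ}
    (L u : Fin k → ℕ) (x : Fin k → R) (hx : Function.Injective x)
    (hW : ∀ σ : Equiv.Perm (Fin k),
      ∑ s ∈ univ.filter (fun s : Equiv.Perm (Fin k) => GoodL k b L u s),
        ((epsL k b L u s : ℤ) : ℂ) * ∏ i, ι (x (σ i)) ^ L (s i) = 0) :
    RelL (∏ i, (X - C (φ (x i)))) b L u := by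
  refine relL_quot φ hφ L u x hx (fun σ => ?_)
  apply hι
  rw [map_zero, map_sum, ← hW σ]
  refine Finset.sum_congr rfl (fun s _ => ?_)
  rw [map_mul, map_intCast, map_prod]
  congr 1
  refine Finset.prod_congr rfl (fun i _ => ?_)
  rw [map_pow]

/-- **T3 for the label set `L`, over a quotient of characteristic 2 of a subring of `ℂ`.** -/
theorem relL_of {R S : Type} [CommRing R] [IsDomain R] [CommRing S] [CharP S 2] (φ : R →+* S)
    (hφ : Function.Surjective φ) (ι : R →+* ℂ) (hι : Function.Injective ι) {k b : ℕ}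
    (hb0 : 0 < b) (hb : b ≤ k)
    (L u : Fin k → ℕ) (hLge : ∀ i : Fin k, (i : ℕ) ≤ L i)
    (hu : ∑ i, L i + ∑ i, u i = ∑ i : Fin k, (i : ℕ) + b)
    (x : Fin k → R) (hx : Function.Injective x) (y : Fin k → ℂ) (hy : Function.Injective y)
    (hV : ∀ σ : Equiv.Perm (Fin k), (Matrix.vandermonde (fun i => ι (x i) * y (σ i))).det = 0)
    (he : ∀ i, (supp u).card ≤ i → i < b → es y i = 0) (heb : es y b ≠ 0) :
    RelL (∏ i, (X - C (φ (x i)))) b L u := by
  classical
  refine relL_quot_C φ hφ ι hι L u x hx (fun σ => ?_)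
  have hV' : ∀ τ : Equiv.Perm (Fin k),
      (Matrix.vandermonde (fun i => ι (x (σ i)) * y (τ i))).det = 0 := by
    intro τ
    rw [Matrix.det_vandermonde_eq_zero_iff]
    have h1 := hV (σ.symm.trans τ)
    rw [Matrix.det_vandermonde_eq_zero_iff] at h1
    obtain ⟨i, j, hij, hne⟩ := h1
    refine ⟨σ.symm i, σ.symm j, ?_, fun h => hne (σ.symm.injective h)⟩
    simpa using hij
  have h1 := T3L b hb0 hb (fun i => ι (x (σ i))) y hy hV' L u hLge hu he
  exact (mul_eq_zero.1 h1).resolve_left heb

end Pool.Agent.Helper5.CYC
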