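import Pool.Agent.Helper73.SNC.Val

/-!
# The gap relations for a general label set (T3-lambda)

Labels `L : Fin k → ℕ` instead of `[0,k)`.  `GoodL k b L u s`: the exponents `L (s i) + u i` are
`[0,k) - {p} + {p + b}` for some `p`.
-/

set_option autoImplicit false

namespace Pool.Agent.Helper5.CYC

open Finset Matrix Pool.Agent.Helper10.CYC

/-- The exponents `L (s i) + u i` form the set `[0,k) - {p} + {p+b}`. -/
def GoodL (k b : ℕ) (L u : Fin k → ℕ) (s : Equiv.Perm (Fin k)) : Prop :=
  ∃ (π : Equiv.Perm (Fin k)) (j0 : Fin k), L (s j0) + u j0 = π j0 + b ∧ k ≤ (π j0 : ℕ) + b ∧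
    ∀ j, j ≠ j0 → (π j : ℕ) = L (s j) + u j

open Classical in
/-- The sign of a good labelling. -/
noncomputable def epsL (k b : ℕ) (L u : Fin k → ℕ) (s : Equiv.Perm (Fin k)) : ℤˣ :=
  if h : GoodL k b L u s then Equiv.Perm.sign s * Equiv.Perm.sign h.choose else 1

variable {K : Type*} [Field K] {k : ℕ}

/-- Expansion of the alternating sum. -/
lemma expandL (x y : Fin k → K) (L u : Fin k → ℕ)
    (hV : ∀ σ : Equiv.Perm (Fin k), (vandermonde (fun i => x i * y (σ i))).det = 0) :
    ∑ s : Equiv.Perm (Fin k), ((Equiv.Perm.sign s : ℤ) : K) * (∏ i, x i ^ L (s i)) *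
      (Matrix.of fun i j => y i ^ (L (s j) + u j) : Matrix (Fin k) (Fin k) K).det = 0 := by
  have h1 : ∀ σ : Equiv.Perm (Fin k), ∑ s : Equiv.Perm (Fin k), ((Equiv.Perm.sign s : ℤ) : K) *
      (∏ i, x i ^ L (s i)) * ∏ i, y (σ i) ^ L (s i) = 0 := by
    intro σ
    have h0 : (Matrix.of fun i j => (x i * y (σ i)) ^ L j : Matrix (Fin k) (Fin k) K).det = 0 := by
      have h2 := hV σ
      rw [det_vandermonde_eq_zero_iff] at h2
      obtain ⟨i, j, hij, hne⟩ := h2
      refine Matrix.det_zero_of_row_eq hne ?_
      funext t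
      simp only [Matrix.of_apply]
      rw [hij]
    rw [← h0, ← det_transpose, det_apply']
    refine sum_congr rfl (fun s _ => ?_)
    rw [mul_assoc, ← prod_mul_distrib]
    congr 1
    refine prod_congr rfl (fun i _ => ?_)
    rw [transpose_apply, Matrix.of_apply, mul_pow]
  have h2 : ∑ σ : Equiv.Perm (Fin k), ((Equiv.Perm.sign σ : ℤ) : K) * (∏ i, y (σ i) ^ u i) *
      (∑ s : Equiv.Perm (Fin k), ((Equiv.Perm.sign s : ℤ) : K) *
      (∏ i, x i ^ L (s i)) * ∏ i, y (σ i) ^ L (s i)) = 0 :=
    sum_eq_zero (fun σ _ => by rw [h1 σ, mul_zero])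
  rw [← h2]
  simp only [mul_sum]
  rw [sum_comm]
  refine sum_congr rfl (fun s _ => ?_)
  rw [det_apply', mul_sum]
  refine sum_congr rfl (fun σ _ => ?_)
  simp only [Matrix.of_apply, pow_add, prod_mul_distrib]
  ring

lemma goodL_or_zero (y : Fin k → K) (hy : Function.Injective y) (b : ℕ) (hb0 : 0 < b)
    (L u : Fin k → ℕ) (hLge : ∀ i : Fin k, (i : ℕ) ≤ L i)
    (hu : ∑ i, L i + ∑ i, u i = ∑ i : Fin k, (i : ℕ) + b)
    (he : ∀ i, (supp u).card ≤ i → i < b → es y i = 0)
    (s : Equiv.Perm (Fin k)) :
    (Matrix.of fun i j => y i ^ (L (s j) + u j) : Matrix (Fin k) (Fin k) K).det = 0 ∨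
      GoodL k b L u s := by
  classical
  set E : Fin k → ℕ := fun j => L (s j) + u j with hE
  have hsumE : ∑ j, E j = ∑ j : Fin k, (j : ℕ) + b := by
    rw [hE, sum_add_distrib, Equiv.sum_comp s L, hu]
  by_cases hinj : Function.Injective E
  swap
  · left
    rw [Function.not_injective_iff] at hinj
    obtain ⟨a, c, hac, hne⟩ := hinj
    refine Matrix.det_zero_of_column_eq hne (fun i => ?_)
    simp only [hE] at hac
    simp only [Matrix.of_apply]
    rw [hac]
  have hex : ∃ n, n < k ∧ ∀ j, E j ≠ n := by
    by_contra hcon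
    push Not at hcon
    have hcon' : ∀ t : Fin k, ∃ j, E j = t := fun t => hcon t t.2
    choose g hg using hcon'
    have hginj : Function.Injective g := by
      intro a c hac
      have h1 := hg a
      have h2 := hg c
      rw [hac] at h1
      exact Fin.ext (by omega)
    have hbij := Finite.injective_iff_bijective.1 hginj
    have h3 : ∑ t : Fin k, E (g t) = ∑ j, E j :=
      Function.Bijective.sum_comp hbij E
    have h4 : ∑ t : Fin k, E (g t) = ∑ t : Fin k, (t : ℕ) :=
      sum_congr rfl (fun t _ => hg t)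
    omega
  set z := Nat.find hex with hzdef
  obtain ⟨hzk, hzE⟩ := Nat.find_spec hex
  rw [← hzdef] at hzk hzE
  have hmin : ∀ n, n < z → ∃ j, E j = n := by
    intro n hn
    have := Nat.find_min hex hn
    push Not at this
    exact this (by omega)
  have hfix : ∀ n, n < z → ∀ j, E j = n → u j = 0 := by
    intro n
    -- labels below `z`: the slot carrying `n` has label exactly `n`
    have key : ∀ n, n < z → ∀ j, E j = n → (s j : ℕ) = n ∧ u j = 0 := by
      intro n
      induction n using Nat.strong_induction_on with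
      | _ n ih =>
        intro hn j hj
        have h1 : (s j : ℕ) ≤ L (s j) := hLge _
        have h2 : L (s j) + u j = n := by rw [← hj, hE]
        rcases Nat.lt_or_ge (s j : ℕ) n with hlt | hge
        · exfalso
          -- the slot carrying `s j` has label `s j`
          obtain ⟨j', hj'⟩ := hmin (s j) (by omega)
          have h3 := ih (s j) hlt (by omega) j' hj'
          have h4 : j' = j := s.injective (Fin.ext h3.1)
          rw [h4] at hj'
          omega
        · omega
    intro hn j hj
    exact (key n hn j hj).2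
  have hzr : z + (supp u).card ≤ k := by
    -- the `z` slots carrying `0..z-1` have `u = 0`
    choose g hg using (fun n : Fin z => hmin n n.2)
    have hginj : Function.Injective g := by
      intro a c hac
      have h1 := hg a
      have h2 := hg c
      rw [hac] at h1
      exact Fin.ext (by omega)
    have h1 : (univ.image g) ⊆ univ \ supp u := by
      intro t ht
      rw [mem_image] at ht
      obtain ⟨n, _, rfl⟩ := ht
      rw [mem_sdiff, mem_supp, not_not]
      exact ⟨mem_univ _, hfix n n.2 _ (hg n)⟩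
    have h2 := card_le_card h1
    rw [card_image_of_injective _ hginj, card_univ, Fintype.card_fin, card_sdiff_of_subset (subset_univ _),
      card_univ, Fintype.card_fin] at h2
    have h3 : (supp u).card ≤ k := by
      have := card_le_univ (supp u)
      rwa [Fintype.card_fin] at this
    omega
  by_cases h2 : ∀ j, E j < k ∨ E j < z + b
  · left
    exact det_zero y hy b (supp u).card z hzk hzr he E hzE h2
  right
  push Not at h2
  obtain ⟨j0, hj0, hj1⟩ := h2
  have hfinj : Function.Injective (Function.update E j0 z) := by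
    intro a c hac
    by_cases ha : a = j0
    · by_cases hc : c = j0
      · rw [ha, hc]
      · rw [ha, Function.update_self, Function.update_of_ne hc] at hac
        exact absurd hac.symm (hzE c)
    · by_cases hc : c = j0
      · rw [hc, Function.update_self, Function.update_of_ne ha] at hac
        exact absurd hac (hzE a)
      · rw [Function.update_of_ne ha, Function.update_of_ne hc] at hac
        exact hinj hac
  have hfsum : ∑ j, Function.update E j0 z j + E j0 = ∑ j, E j + z := by
    rw [Finset.sum_update_of_mem (mem_univ j0), ← Finset.add_sum_erase univ E (mem_univ j0),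
      ← Finset.erase_eq]
    omega
  have hflt := lt_of_inj_sum _ hfinj (by omega)
  let f : Fin k → Fin k := fun j => ⟨Function.update E j0 z j, hflt j⟩
  have hfb : Function.Bijective f := by
    apply Finite.injective_iff_bijective.1
    intro a c hac
    exact hfinj (Fin.mk.inj_iff.1 hac)
  have hfs : ∑ j, Function.update E j0 z j = ∑ j : Fin k, (j : ℕ) :=
    Function.Bijective.sum_comp hfb (fun j : Fin k => (j : ℕ))
  have hEj0 : E j0 = z + b := by omega
  refine ⟨Equiv.ofBijective f hfb, j0, ?_, ?_, ?_⟩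
  · have hπ0 : ((Equiv.ofBijective f hfb j0 : Fin k) : ℕ) = z := by
      simp [f]
    rw [hπ0]; exact hEj0
  · have hπ0 : ((Equiv.ofBijective f hfb j0 : Fin k) : ℕ) = z := by
      simp [f]
    rw [hπ0]; omega
  · intro j hj
    simp only [Equiv.ofBijective_apply, f]
    rw [Function.update_of_ne hj]

/-- The number of slots below the hole. -/
lemma goodL_hole {b : ℕ} {L u : Fin k → ℕ} (hLge : ∀ i : Fin k, (i : ℕ) ≤ L i)
    {s π : Equiv.Perm (Fin k)} {j0 : Fin k} (h1 : L (s j0) + u j0 = π j0 + b)
    (hbig : k ≤ (π j0 : ℕ) + b)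
    (h2 : ∀ j, j ≠ j0 → (π j : ℕ) = L (s j) + u j) : (π j0 : ℕ) + (supp u).card ≤ k := by
  classical
  -- every `n < π j0` is carried by a slot with `u = 0`
  have key : ∀ n, n < (π j0 : ℕ) → ∀ j, (π j : ℕ) = n → (s j : ℕ) = n ∧ u j = 0 := by
    intro n
    induction n using Nat.strong_induction_on with
    | _ n ih =>
      intro hn j hj
      have hjj : j ≠ j0 := by rintro rfl; omega
      have h3 := h2 j hjj
      have h4 : (s j : ℕ) ≤ L (s j) := hLge _
      rcases Nat.lt_or_ge (s j : ℕ) n with hlt | hge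
      · exfalso
        have h5 := ih (s j) hlt (by omega) (π.symm (s j)) (by simp)
        have h6 : π.symm (s j) = j := s.injective (Fin.ext h5.1)
        have h7 : π j = s j := by rw [← h6, Equiv.apply_symm_apply, h6]
        rw [h7] at hj
        omega
      · omega
  have hinj : Function.Injective (fun n : Fin (π j0 : ℕ) =>
      π.symm ⟨n, n.2.trans (π j0).2⟩) := by
    intro a c hac
    have h3 := π.symm.injective hac
    exact Fin.ext (Fin.mk.inj_iff.1 h3)
  have h3 : univ.image (fun n : Fin (π j0 : ℕ) =>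
      π.symm ⟨n, n.2.trans (π j0).2⟩) ⊆ univ \ supp u := by
    intro t ht
    rw [mem_image] at ht
    obtain ⟨n, _, rfl⟩ := ht
    rw [mem_sdiff, mem_supp, not_not]
    exact ⟨mem_univ _, (key n n.2 _ (by simp)).2⟩
  have h4 := card_le_card h3
  rw [card_image_of_injective _ hinj, card_univ, Fintype.card_fin,
    card_sdiff_of_subset (subset_univ _), card_univ, Fintype.card_fin] at h4
  have h5 : (supp u).card ≤ k := by
    have := card_le_univ (supp u)
    rwa [Fintype.card_fin] at this
  omega

lemma det_of_goodL (y : Fin k → K) (hy : Function.Injective y) (b : ℕ) (hb0 : 0 < b) (hb : b ≤ k)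
    (L u : Fin k → ℕ) (hLge : ∀ i : Fin k, (i : ℕ) ≤ L i)
    (he : ∀ i, (supp u).card ≤ i → i < b → es y i = 0)
    (s π : Equiv.Perm (Fin k)) (j0 : Fin k) (h1 : L (s j0) + u j0 = π j0 + b)
    (hbig : k ≤ (π j0 : ℕ) + b)
    (h2 : ∀ j, j ≠ j0 → (π j : ℕ) = L (s j) + u j) :
    (Matrix.of fun i j => y i ^ (L (s j) + u j) : Matrix (Fin k) (Fin k) K).det
      = ((Equiv.Perm.sign π : ℤ) : K) * (- ((-1) ^ b * es y b) * (vandermonde y).det) := by
  have h3 : (Matrix.of fun i j => y i ^ (L (s j) + u j) : Matrix (Fin k) (Fin k) K)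
      = (Matrix.of fun i j => y i ^ (if j = π j0 then ((π j0 : Fin k) : ℕ) + b else (j : ℕ)) :
          Matrix (Fin k) (Fin k) K).submatrix id π := by
    ext i j
    simp only [Matrix.of_apply, Matrix.submatrix_apply, id]
    by_cases h : j = j0
    · rw [h, if_pos rfl, h1]
    · rw [if_neg (fun hh => h (π.injective hh)), h2 j h]
  rw [h3, det_permute', det_hook y hy b (supp u).card (π j0) hb0 hb hbig
    (goodL_hole hLge h1 hbig h2) he]

open Classical in
/-- **T3 for the label set `L`.** -/
theorem T3L (b : ℕ) (hb0 : 0 < b) (hb : b ≤ k) (x y : Fin k → K) (hy : Function.Injective y)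
    (hV : ∀ σ : Equiv.Perm (Fin k), (vandermonde (fun i => x i * y (σ i))).det = 0)
    (L u : Fin k → ℕ) (hLge : ∀ i : Fin k, (i : ℕ) ≤ L i)
    (hu : ∑ i, L i + ∑ i, u i = ∑ i : Fin k, (i : ℕ) + b)
    (he : ∀ i, (supp u).card ≤ i → i < b → es y i = 0) :
    es y b * ∑ s ∈ univ.filter (fun s : Equiv.Perm (Fin k) => GoodL k b L u s),
      ((epsL k b L u s : ℤ) : K) * ∏ i, x i ^ L (s i) = 0 := by
  have h1 := expandL x y L u hV
  have h2 : ∀ s : Equiv.Perm (Fin k), ((Equiv.Perm.sign s : ℤ) : K) * (∏ i, x i ^ L (s i)) *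
      (Matrix.of fun i j => y i ^ (L (s j) + u j) : Matrix (Fin k) (Fin k) K).det
      = if GoodL k b L u s then (- (-1) ^ b * es y b * (vandermonde y).det)
          * (((epsL k b L u s : ℤ) : K) * ∏ i, x i ^ L (s i)) else 0 := by
    intro s
    by_cases hg : GoodL k b L u s
    · rw [if_pos hg]
      have he' : epsL k b L u s = Equiv.Perm.sign s * Equiv.Perm.sign hg.choose := dif_pos hg
      obtain ⟨j0, hj1, hj2, hj3⟩ := hg.choose_spec
      rw [det_of_goodL y hy b hb0 hb L u hLge he s hg.choose j0 hj1 hj2 hj3, he']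
      push_cast
      ring
    · rw [if_neg hg]
      rcases goodL_or_zero y hy b hb0 L u hLge hu he s with h | h
      · rw [h, mul_zero]
      · exact absurd h hg
  rw [sum_congr rfl (fun s _ => h2 s), ← sum_filter, ← mul_sum] at h1
  have hV0 : (vandermonde y).det ≠ 0 := det_vandermonde_ne_zero_iff.2 hy
  have hs0 : (-(-1 : K) ^ b) ≠ 0 := neg_ne_zero.2 (pow_ne_zero _ (by norm_num))
  rcases mul_eq_zero.1 h1 with h | h
  · rcases mul_eq_zero.1 h with h | h
    · rcases mul_eq_zero.1 h with h | h
      · exact absurd h hs0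
      · rw [h, zero_mul]
    · exact absurd h hV0
  · rw [h, mul_zero]

end Pool.Agent.Helper5.CYC
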