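import Pool.Agent.Helper10.CYC.T3

/-!
# Word lemma for the gap relations

`Good k b u s` says exactly that the cyclic intervals `[s_i, s_i + u_i)` (`u_i ≠ 0`) on the
circle `[k-b, k)` of length `b` tile the circle.
-/

set_option autoImplicit false

namespace Pool.Agent.Helper5.CYC

open Finset Pool.Agent.Helper10.CYC

variable {k : ℕ}

/-- Cyclic interval of length `g` starting at `l` on the circle `[k-b, k)`. -/
def cint (k b l g : ℕ) : Finset ℕ :=
  (Ico (k - b) k).filter (fun c => (l ≤ c ∧ c < l + g) ∨ c + b < l + g)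

lemma mem_cint {k b l g c : ℕ} : c ∈ cint k b l g ↔
    k - b ≤ c ∧ c < k ∧ ((l ≤ c ∧ c < l + g) ∨ c + b < l + g) := by
  rw [cint, mem_filter, mem_Ico, and_assoc]

lemma cint_subset (k b l g : ℕ) : cint k b l g ⊆ Ico (k - b) k := filter_subset _ _

/-- Number of elements. -/
lemma card_cint {k b l g : ℕ} (hb : b ≤ k) (hl : k ≤ l + b) (hlk : l < k) (hg : g ≤ b) :
    (cint k b l g).card = g := by
  by_cases h : l + g ≤ k
  · have h1 : cint k b l g = Ico l (l + g) := by
      ext c; rw [mem_cint, mem_Ico]; omega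
    rw [h1, Nat.card_Ico]; omega
  · have h1 : cint k b l g = Ico l k ∪ Ico (k - b) (l + g - b) := by
      ext c; rw [mem_cint, mem_union, mem_Ico, mem_Ico]; omega
    rw [h1, card_union_of_disjoint, Nat.card_Ico, Nat.card_Ico]
    · omega
    · rw [disjoint_left]
      intro c h2 h3
      rw [mem_Ico] at h2 h3
      omega

/-- A good labelling tiles the circle. -/
theorem tile_of_good (b : ℕ) (hb0 : 0 < b) (hb : b ≤ k) (u : Fin k → ℕ) (hu : ∑ i, u i = b)
    (s : Equiv.Perm (Fin k)) (hg : Good k b u s) (c : ℕ) (hc0 : k - b ≤ c) (hck : c < k) :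
    ((supp u).filter (fun i => c ∈ cint k b (s i) (u i))).card = 1 := by
  classical
  obtain ⟨π, j0, hS⟩ := str_of_good b hb0 u hu s hg
  have hj0 : u j0 ≠ 0 := hS.u_ne
  -- indicator identity
  have hind : ∀ i ∈ supp u, (if c ∈ cint k b (s i) (u i) then 1 else 0 : ℕ)
      + (if (π i : ℕ) ≤ c then 1 else 0)
      = (if (s i : ℕ) ≤ c then 1 else 0) + (if i = j0 then 1 else 0) := by
    intro i hi
    rw [mem_supp] at hi
    have hk1 := (hg i hi).1
    have hs1 := (s i).2
    have hp1 := (π i).2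
    by_cases hij : i = j0
    · subst hij
      have h1 := hS.out
      have h2 := hS.low i hi
      have h3 := hS.big
      have hm : c ∈ cint k b (s i) (u i) ↔ ((s i : ℕ) ≤ c ∨ c < (π i : ℕ)) := by
        rw [mem_cint]; omega
      simp only [hm, if_true]
      split_ifs <;> omega
    · have h1 := hS.rest i hij
      have hm : c ∈ cint k b (s i) (u i) ↔ ((s i : ℕ) ≤ c ∧ c < (π i : ℕ)) := by
        rw [mem_cint]; omega
      simp only [hm, if_neg hij]
      split_ifs <;> omega
  have hsum := sum_congr rfl hind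
  rw [sum_add_distrib, sum_add_distrib] at hsum
  -- the two label counts agree
  have hcnt : ∑ i ∈ supp u, (if (π i : ℕ) ≤ c then 1 else 0 : ℕ)
      = ∑ i ∈ supp u, (if (s i : ℕ) ≤ c then 1 else 0 : ℕ) := by
    have hall : ∑ i : Fin k, (if (π i : ℕ) ≤ c then 1 else 0 : ℕ)
        = ∑ i : Fin k, (if (s i : ℕ) ≤ c then 1 else 0 : ℕ) := by
      rw [Equiv.sum_comp π (fun j : Fin k => (if (j : ℕ) ≤ c then 1 else 0 : ℕ)),
        Equiv.sum_comp s (fun j : Fin k => (if (j : ℕ) ≤ c then 1 else 0 : ℕ))]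
    have hcompl : ∑ i ∈ univ \ supp u, (if (π i : ℕ) ≤ c then 1 else 0 : ℕ)
        = ∑ i ∈ univ \ supp u, (if (s i : ℕ) ≤ c then 1 else 0 : ℕ) := by
      refine sum_congr rfl (fun i hi => ?_)
      rw [mem_sdiff, mem_supp, not_not] at hi
      have hij : i ≠ j0 := fun h => hj0 (h ▸ hi.2)
      rw [hS.rest i hij, hi.2, add_zero]
    rw [← sum_sdiff (subset_univ (supp u)), ← sum_sdiff (subset_univ (supp u)), hcompl] at hall
    omega
  have h1 : ∑ i ∈ supp u, (if i = j0 then 1 else 0 : ℕ) = 1 := by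
    rw [sum_ite_eq' (supp u) j0 (fun _ => 1), if_pos ((mem_supp u j0).2 hj0)]
  rw [card_filter]
  omega

/-- Disjointness form. -/
theorem disj_of_good (b : ℕ) (hb0 : 0 < b) (hb : b ≤ k) (u : Fin k → ℕ) (hu : ∑ i, u i = b)
    (s : Equiv.Perm (Fin k)) (hg : Good k b u s) (i j : Fin k) (hi : u i ≠ 0) (hj : u j ≠ 0)
    (hij : i ≠ j) : Disjoint (cint k b (s i) (u i)) (cint k b (s j) (u j)) := by
  classical
  rw [disjoint_left]
  intro c hc1 hc2
  have hc := mem_cint.1 hc1
  have h1 := tile_of_good b hb0 hb u hu s hg c hc.1 hc.2.1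
  rw [card_eq_one] at h1
  obtain ⟨a, ha⟩ := h1
  have h2 : i ∈ ({a} : Finset (Fin k)) := by
    rw [← ha, mem_filter, mem_supp]; exact ⟨hi, hc1⟩
  have h3 : j ∈ ({a} : Finset (Fin k)) := by
    rw [← ha, mem_filter, mem_supp]; exact ⟨hj, hc2⟩
  rw [mem_singleton] at h2 h3
  exact hij (h2.trans h3.symm)

/-- Disjoint cyclic intervals of total length `b` give a good labelling. -/
theorem good_of_disj (b : ℕ) (hb0 : 0 < b) (hb : b ≤ k) (u : Fin k → ℕ) (hu : ∑ i, u i = b)
    (s : Equiv.Perm (Fin k)) (hC : ∀ i, u i ≠ 0 → k ≤ (s i : ℕ) + b)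
    (hd : ∀ i j, u i ≠ 0 → u j ≠ 0 → i ≠ j →
      Disjoint (cint k b (s i) (u i)) (cint k b (s j) (u j))) : Good k b u s := by
  classical
  have hub : ∀ i, u i ≤ b := by
    intro i
    rw [← hu]
    exact single_le_sum (f := u) (fun _ _ => Nat.zero_le _) (mem_univ i)
  have hcard : ((supp u).biUnion (fun i => cint k b (s i) (u i))).card = b := by
    rw [card_biUnion]
    · have h0 : ∑ i ∈ univ \ supp u, u i = 0 := by
        refine sum_eq_zero (fun i hi => ?_)
        rw [mem_sdiff, mem_supp, not_not] at hi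
        exact hi.2
      have h1 : ∑ i ∈ supp u, u i = b := by
        rw [← hu, ← sum_sdiff (subset_univ (supp u)), h0, zero_add]
      rw [← h1]
      refine sum_congr rfl (fun i hi => ?_)
      rw [mem_supp] at hi
      rw [h1]
      exact card_cint hb (hC i hi) (s i).2 (hub i)
    · intro i hi j hj hij
      have hi' := (mem_supp u i).1 (mem_coe.1 hi)
      have hj' := (mem_supp u j).1 (mem_coe.1 hj)
      exact hd i j hi' hj' hij
  have hunion : (supp u).biUnion (fun i => cint k b (s i) (u i)) = Ico (k - b) k := by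
    apply eq_of_subset_of_card_le
    · intro c hc
      rw [mem_biUnion] at hc
      obtain ⟨i, _, hi⟩ := hc
      exact cint_subset _ _ _ _ hi
    · rw [hcard, Nat.card_Ico]; omega
  intro i hi
  refine ⟨hC i hi, ?_⟩
  have hk1 := hC i hi
  have hs1 := (s i).2
  have hub1 := hub i
  -- the label after the interval
  set c : ℕ := if (s i : ℕ) + u i < k then s i + u i else s i + u i - b with hcdef
  have hc : c ∈ Ico (k - b) k := by
    rw [mem_Ico, hcdef]; split_ifs <;> omega
  rw [← hunion, mem_biUnion] at hc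
  obtain ⟨j, hj, hcj⟩ := hc
  rw [mem_supp] at hj
  refine ⟨j, hj, ?_⟩
  have hkj := hC j hj
  have hsj := (s j).2
  have hubj := hub j
  by_contra hcon
  push Not at hcon
  -- the predecessor lies in both intervals
  by_cases hij : i = j
  · subst hij
    rw [mem_cint, hcdef] at hcj
    split_ifs at hcj <;> omega
  · have hdij := hd i j hi hj hij
    rw [disjoint_left] at hdij
    set c' : ℕ := if (s i : ℕ) + u i ≤ k then s i + u i - 1 else s i + u i - 1 - b with hc'def
    have h1 : c' ∈ cint k b (s i) (u i) := by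
      rw [mem_cint, hc'def]; split_ifs <;> omega
    have h2 : c' ∈ cint k b (s j) (u j) := by
      rw [mem_cint, hcdef] at hcj
      rw [mem_cint, hc'def]
      split_ifs at hcj ⊢ <;> omega
    exact hdij h1 h2

theorem good_iff (b : ℕ) (hb0 : 0 < b) (hb : b ≤ k) (u : Fin k → ℕ) (hu : ∑ i, u i = b)
    (s : Equiv.Perm (Fin k)) : Good k b u s ↔ (∀ i, u i ≠ 0 → k ≤ (s i : ℕ) + b) ∧
      ∀ i j, u i ≠ 0 → u j ≠ 0 → i ≠ j →
        Disjoint (cint k b (s i) (u i)) (cint k b (s j) (u j)) :=
  ⟨fun hg => ⟨fun i hi => (hg i hi).1, fun i j hi hj hij => disj_of_good b hb0 hb u hu s hg i j hi hj hij⟩,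
    fun h => good_of_disj b hb0 hb u hu s h.1 h.2⟩

end Pool.Agent.Helper5.CYC
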